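import Pool.Agent.J4H81.GB.NuZ

/-!
# The asymptotic formula for Goldbach partitions by the primes of constellations, for all but few systems and `X` in long ranges

For all `a`, `b`, `A`, `B` there are arbitrarily large `Y` such that for every `X` with `Y ≤ X ≤ Y ^ ((log log Y) ^ A)` all but at
most `X ^ (a + b) exp (- log X / (log log X) ^ (A + B + 4))` of the admissible pairs of vectors `n`, `m` with entries in
`(3 X / 2, 2 X]` and `[1, X]` satisfy: the number of the primes `p` in `(X, 2 X]` for which all the `2 n_i - p` and all the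
`p + m_j` are prime differs from the number expected by Hardy and Littlewood by at most its `(log log X) ^ B`-th part.

Method (helper32 and helper81, with parts by helpers 6, 17, 18, 19, 57, 68, 79, 98): at a scale without zeros of Dirichlet
`L`-functions near one, the primes in the residue classes modulo a primorial have a simple model, a truncated singular series.
The product of the `a + b + 1` prime weights is compared with the product of the models by telescoping and Bessel's inequality
in each of the parameters, where the weights of the `2 n_i - p` are reflected (the model is even); two-sided in each class, and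
summed.
-/

set_option autoImplicit false

namespace Pool.Agent.Results.MP_33f996_nt.ConstellationPartitionsFormula

open Finset Filter

open Classical in
/-- The number of the primes `p` with `X < p ≤ 2 X` such that every `2 n_i` is the sum of `p` and a prime, and every `p + m_j` is
prime. -/
noncomputable def count {a b : ℕ} (n : Fin a → ℕ) (m : Fin b → ℕ) (X : ℕ) : ℕ :=
  ((Ioc X (2 * X)).filter (fun p : ℕ => p.Prime ∧ (∀ i, ∃ q : ℕ, q.Prime ∧ p + q = 2 * n i) ∧ ∀ j, (p + m j).Prime)).card

/-- There is no local obstruction: for every prime `q` there is an integer `r` such that `q` divides none of the integers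
`r`, `2 n_i - r`, `r + m_j`. -/
def Admissible {a b : ℕ} (n : Fin a → ℕ) (m : Fin b → ℕ) : Prop :=
  ∀ q : ℕ, q.Prime → ∃ r : ℤ, ¬ (q : ℤ) ∣ r ∧ (∀ i, ¬ (q : ℤ) ∣ 2 * (n i : ℤ) - r) ∧ ∀ j, ¬ (q : ℤ) ∣ r + m j

/-- The number `w (q)` of the residue classes modulo `q` occupied by the integers `0`, `2 n_i`, `- m_j`. -/
def classes {a b : ℕ} (n : Fin a → ℕ) (m : Fin b → ℕ) (q : ℕ) : ℕ :=
  (insert 0 (univ.image (fun i => 2 * (n i : ℤ) % q) ∪ univ.image (fun j => -(m j : ℤ) % q))).card

/-- The factor at `q` of the singular series. -/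
noncomputable def factor {a b : ℕ} (n : Fin a → ℕ) (m : Fin b → ℕ) (q : ℕ) : ℝ :=
  (1 - (classes n m q : ℝ) / q) / (1 - 1 / (q : ℝ)) ^ (a + b + 1)

/-- The expected number `C X / (log X) ^ (a + b + 1)` with the singular series `C`. -/
noncomputable def expected {a b : ℕ} (n : Fin a → ℕ) (m : Fin b → ℕ) (X : ℕ) : ℝ :=
  (∏' q : Nat.Primes, factor n m q) * X / Real.log X ^ (a + b + 1)

/-- The exceptional pairs `(n, m)`: admissible, with `3 X / 2 < n_i ≤ 2 X` and `1 ≤ m_j ≤ X`, for which the number of the primes
above differs from the expected number by more than its `(log log X) ^ B`-th part. -/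
def exceptional (a b B X : ℕ) : Set ((Fin a → ℕ) × (Fin b → ℕ)) :=
  {v | (∀ i, 3 * X < 2 * v.1 i ∧ v.1 i ≤ 2 * X) ∧ (∀ j, 1 ≤ v.2 j ∧ v.2 j ≤ X) ∧ Admissible v.1 v.2 ∧
    1 / Real.log (Real.log X) ^ B * expected v.1 v.2 X < |(count v.1 v.2 X : ℝ) - expected v.1 v.2 X|}

/-- the signs -/
def sg (a b : ℕ) : Fin (a + b) → Bool := Fin.append (fun _ => true) (fun _ => false)

theorem sg_t {a b : ℕ} (i : Fin a) : sg a b (Fin.castAdd b i) = true := by unfold sg; rw [Fin.append_left]

theorem sg_f {a b : ℕ} (j : Fin b) : sg a b (Fin.natAdd a j) = false := by unfold sg; rw [Fin.append_right]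

/-- the vector of a pair -/
def vec {a b : ℕ} (n : Fin a → ℕ) (m : Fin b → ℕ) : Fin (a + b) → ℕ := Fin.append (fun i => 2 * n i) m

theorem vec_t {a b : ℕ} (n : Fin a → ℕ) (m : Fin b → ℕ) (i : Fin a) : vec n m (Fin.castAdd b i) = 2 * n i := by
  unfold vec; rw [Fin.append_left]

theorem vec_f {a b : ℕ} (n : Fin a → ℕ) (m : Fin b → ℕ) (j : Fin b) : vec n m (Fin.natAdd a j) = m j := by
  unfold vec; rw [Fin.append_right]

theorem es_t {a b : ℕ} (n : Fin a → ℕ) (m : Fin b → ℕ) (i : Fin a) :
    Pool.Agent.J4H81.GB.es (sg a b) (vec n m) (Fin.castAdd b i).succ = -(2 * (n i : ℤ)) := by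
  unfold Pool.Agent.J4H81.GB.es
  rw [Fin.cons_succ, sg_t, vec_t, if_pos rfl]
  push_cast
  rfl

theorem es_f {a b : ℕ} (n : Fin a → ℕ) (m : Fin b → ℕ) (j : Fin b) :
    Pool.Agent.J4H81.GB.es (sg a b) (vec n m) (Fin.natAdd a j).succ = (m j : ℤ) := by
  unfold Pool.Agent.J4H81.GB.es
  rw [Fin.cons_succ, sg_f, vec_f]
  rfl

theorem es_0 {a b : ℕ} (n : Fin a → ℕ) (m : Fin b → ℕ) : Pool.Agent.J4H81.GB.es (sg a b) (vec n m) 0 = 0 := rfl

theorem classes_eq {a b : ℕ} (n : Fin a → ℕ) (m : Fin b → ℕ) (q : ℕ) :
    classes n m q = Pool.Agent.J4H32.MV.nuZ (Pool.Agent.J4H81.GB.es (sg a b) (vec n m)) q := by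
  rw [← Pool.Agent.J4H81.GB.nuZ_neg]
  unfold classes Pool.Agent.J4H32.MV.nuZ
  congr 1
  ext x
  simp only [Finset.mem_image, Finset.mem_insert, Finset.mem_union, Finset.mem_univ, true_and]
  constructor
  · rintro (rfl | ⟨i, rfl⟩ | ⟨j, rfl⟩)
    · exact ⟨0, by rw [es_0]; simp⟩
    · exact ⟨(Fin.castAdd b i).succ, by rw [es_t, neg_neg]⟩
    · exact ⟨(Fin.natAdd a j).succ, by rw [es_f]⟩
  · rintro ⟨j, rfl⟩
    refine Fin.cases ?_ (fun j => ?_) j
    · left
      rw [es_0]
      simp
    · refine Fin.addCases (fun i => ?_) (fun j => ?_) j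
      · right; left
        exact ⟨i, by rw [es_t, neg_neg]⟩
      · right; right
        exact ⟨j, by rw [es_f]⟩

theorem factor_eq {a b : ℕ} (n : Fin a → ℕ) (m : Fin b → ℕ) (q : ℕ) :
    factor n m q = Pool.Agent.J4H32.MV.facZ (Pool.Agent.J4H81.GB.es (sg a b) (vec n m)) q := by
  unfold factor Pool.Agent.J4H32.MV.facZ
  rw [classes_eq]

/-- Remark: the product over the primes in `expected` converges if the `n_i` are distinct and positive and the `m_j` are distinct
and positive. (There are few pairs with two equal entries; those of them which belong to `exceptional` are included in the bound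
of `result`.) -/
theorem converges {a b : ℕ} (n : Fin a → ℕ) (m : Fin b → ℕ) (hn : Function.Injective n) (hn1 : ∀ i, 1 ≤ n i)
    (hm : Function.Injective m) (hm1 : ∀ j, 1 ≤ m j) : Multipliable (fun q : Nat.Primes => factor n m q) := by
  have hinj : Function.Injective (Pool.Agent.J4H81.GB.es (sg a b) (vec n m)) := by
    intro x y
    refine Fin.cases ?_ (fun x => ?_) x
    · refine Fin.cases ?_ (fun y => ?_) y
      · intro _; rfl
      · refine Fin.addCases (fun i => ?_) (fun j => ?_) y
        · intro h
          rw [es_0, es_t] at h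
          have := hn1 i
          omega
        · intro h
          rw [es_0, es_f] at h
          have := hm1 j
          omega
    · refine Fin.addCases (fun i => ?_) (fun j => ?_) x
      · refine Fin.cases ?_ (fun y => ?_) y
        · intro h
          rw [es_0, es_t] at h
          have := hn1 i
          omega
        · refine Fin.addCases (fun i' => ?_) (fun j' => ?_) y
          · intro h
            rw [es_t, es_t] at h
            have : i = i' := hn (by omega)
            rw [this]
          · intro h
            rw [es_t, es_f] at h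
            have := hn1 i
            have := hm1 j'
            omega
      · refine Fin.cases ?_ (fun y => ?_) y
        · intro h
          rw [es_0, es_f] at h
          have := hm1 j
          omega
        · refine Fin.addCases (fun i' => ?_) (fun j' => ?_) y
          · intro h
            rw [es_f, es_t] at h
            have := hn1 i'
            have := hm1 j
            omega
          · intro h
            rw [es_f, es_f] at h
            have : j = j' := hm (by omega)
            rw [this]
  refine (Pool.Agent.J4H32.MV.facZ_mult _ hinj).congr fun q => ?_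
  rw [factor_eq]

/-- For all `a`, `b`, `A`, `B` there are arbitrarily large `Y` such that for every `X` with `Y ≤ X ≤ Y ^ ((log log Y) ^ A)` there
are at most `X ^ (a + b) exp (-log X / (log log X) ^ (A + B + 4))` exceptional pairs. -/
theorem result (a b A B : ℕ) (Y₀ : ℝ) : ∃ Y : ℝ, Y₀ ≤ Y ∧ ∀ X : ℕ, Y ≤ X → (X : ℝ) ≤ Y ^ (Real.log (Real.log Y) ^ A) →
    ((exceptional a b B X).ncard : ℝ) ≤ (X : ℝ) ^ (a + b) * Real.exp (-(Real.log X / Real.log (Real.log X) ^ (A + B + 4))) := by
  classical
  obtain ⟨Y, hY, hYX⟩ := Pool.Agent.J4H32.MV.mainGY (a + b) A B (sg a b) Y₀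
  refine ⟨Y, hY, fun X h1 h2 => ?_⟩
  refine le_trans ?_ (hYX X h1 h2)
  set φ : ((Fin a → ℕ) × (Fin b → ℕ)) → (Fin (a + b) → ℕ) := fun v => vec v.1 v.2 with hφ
  have hinj : Function.Injective φ := by
    intro v v' h
    apply Prod.ext
    · funext i
      have h1 := congrFun h (Fin.castAdd b i)
      simp only [hφ, vec_t] at h1
      omega
    · funext j
      have h1 := congrFun h (Fin.natAdd a j)
      simp only [hφ, vec_f] at h1
      exact h1
  have hmem : ∀ v ∈ exceptional a b B X, φ v ∈ ((Fintype.piFinset (fun i : Fin (a + b) => Pool.Agent.J4H32.MV.rgX (sg a b i) X)).filter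
      (fun x => Pool.Agent.J4H81.GB.AdX (sg a b) x ∧
        1 / Real.log (Real.log X) ^ B * (Pool.Agent.J4H32.MV.SSZ (Pool.Agent.J4H81.GB.es (sg a b) x) * X / Real.log X ^ (a + b + 1)) <
          |(Pool.Agent.J4H32.MV.CnX (sg a b) x X : ℝ) - Pool.Agent.J4H32.MV.SSZ (Pool.Agent.J4H81.GB.es (sg a b) x) * X / Real.log X ^ (a + b + 1)|)) := by
    rintro ⟨n, m⟩ ⟨hn, hm, had, hex⟩
    simp only at hn hm had hex
    rw [Finset.mem_filter, Fintype.mem_piFinset]
    show _ ∧ Pool.Agent.J4H81.GB.AdX (sg a b) (vec n m) ∧
      1 / Real.log (Real.log X) ^ B * (Pool.Agent.J4H32.MV.SSZ (Pool.Agent.J4H81.GB.es (sg a b) (vec n m)) * X / Real.log X ^ (a + b + 1)) <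
          |(Pool.Agent.J4H32.MV.CnX (sg a b) (vec n m) X : ℝ) - Pool.Agent.J4H32.MV.SSZ (Pool.Agent.J4H81.GB.es (sg a b) (vec n m)) * X / Real.log X ^ (a + b + 1)|
    refine ⟨?_, ?_, ?_⟩
    · intro i
      show vec n m i ∈ _
      refine Fin.addCases (fun i => ?_) (fun j => ?_) i
      · rw [sg_t, vec_t]
        show 2 * n i ∈ Finset.Ioc (3 * X) (4 * X)
        have := hn i
        exact Finset.mem_Ioc.2 ⟨this.1, by omega⟩
      · rw [sg_f, vec_f]
        show m j ∈ Finset.Icc 1 X
        exact Finset.mem_Icc.2 (hm j)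
    · intro q hq
      obtain ⟨r, h1, h2, h3⟩ := had q hq
      have hq0 : (q : ℤ) ≠ 0 := by exact_mod_cast hq.ne_zero
      have hr0 : 0 ≤ r % q := Int.emod_nonneg r hq0
      obtain ⟨s, hs⟩ := Int.eq_ofNat_of_zero_le hr0
      have hd : r = q * (r / q) + s := by
        have := Int.mul_ediv_add_emod r q
        omega
      refine ⟨s, ?_⟩
      intro j
      refine Fin.cases ?_ (fun j => ?_) j
      · intro h4
        apply h1
        rw [hd]
        rw [es_0, add_zero] at h4
        exact dvd_add (dvd_mul_right _ _) h4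
      · refine Fin.addCases (fun i => ?_) (fun j => ?_) j
        · intro h4
          apply h2 i
          rw [es_t] at h4
          have e : 2 * (n i : ℤ) - r = -((s : ℤ) + -(2 * (n i : ℤ))) - q * (r / q) := by linarith
          rw [e]
          exact dvd_sub (h4.neg_right) (dvd_mul_right _ _)
        · intro h4
          apply h3 j
          rw [es_f] at h4
          have e : r + (m j : ℤ) = ((s : ℤ) + (m j : ℤ)) + q * (r / q) := by linarith
          rw [e]
          exact dvd_add h4 (dvd_mul_right _ _)
    · have hcnt : count n m X = Pool.Agent.J4H32.MV.CnX (sg a b) (vec n m) X := by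
        unfold count Pool.Agent.J4H32.MV.CnX
        congr 1
        apply filter_congr
        intro p hp
        have hpX := (Finset.mem_Ioc.1 hp).2
        constructor
        · rintro ⟨h1, h2, h3⟩ j
          refine Fin.cases ?_ (fun j => ?_) j
          · rw [Pool.Agent.J4H32.MV.fj_zero]
            exact h1
          · refine Fin.addCases (fun i => ?_) (fun j => ?_) j
            · rw [Pool.Agent.J4H32.MV.fj_true (vec n m) p (sg_t i), vec_t]
              obtain ⟨q, hq, he⟩ := h2 i
              have e : 2 * n i - p = q := by omega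
              rw [e]
              exact hq
            · rw [Pool.Agent.J4H32.MV.fj_false (vec n m) p (sg_f j), vec_f]
              exact h3 j
        · intro h
          refine ⟨by simpa only [Pool.Agent.J4H32.MV.fj_zero] using h 0, fun i => ?_, fun j => ?_⟩
          · have h2 := h (Fin.castAdd b i).succ
            rw [Pool.Agent.J4H32.MV.fj_true (vec n m) p (sg_t i), vec_t] at h2
            have h3 := hn i
            exact ⟨2 * n i - p, h2, by omega⟩
          · have h2 := h (Fin.natAdd a j).succ
            rw [Pool.Agent.J4H32.MV.fj_false (vec n m) p (sg_f j), vec_f] at h2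
            exact h2
      have hexp : expected n m X = Pool.Agent.J4H32.MV.SSZ (Pool.Agent.J4H81.GB.es (sg a b) (vec n m)) * X / Real.log X ^ (a + b + 1) := by
        unfold expected Pool.Agent.J4H32.MV.SSZ
        congr 3
        funext q
        exact factor_eq n m q
      rw [← hexp, ← hcnt]
      exact hex
  have h3 : (exceptional a b B X).ncard ≤ ((Fintype.piFinset (fun i : Fin (a + b) => Pool.Agent.J4H32.MV.rgX (sg a b i) X)).filter
      (fun x => Pool.Agent.J4H81.GB.AdX (sg a b) x ∧
        1 / Real.log (Real.log X) ^ B * (Pool.Agent.J4H32.MV.SSZ (Pool.Agent.J4H81.GB.es (sg a b) x) * X / Real.log X ^ (a + b + 1)) <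
          |(Pool.Agent.J4H32.MV.CnX (sg a b) x X : ℝ) - Pool.Agent.J4H32.MV.SSZ (Pool.Agent.J4H81.GB.es (sg a b) x) * X / Real.log X ^ (a + b + 1)|)).card := by
    rw [← Set.ncard_coe_finset, ← Set.ncard_image_of_injective _ hinj]
    apply Set.ncard_le_ncard _ (Finset.finite_toSet _)
    rintro _ ⟨v, hv, rfl⟩
    exact hmem v hv
  exact_mod_cast h3

end Pool.Agent.Results.MP_33f996_nt.ConstellationPartitionsFormula
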