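import Pool.Agent.J4H81.GB.MainX

/-!
# Goldbach partitions of several even numbers by the same prime, which lies in a prescribed constellation

For every `a`, `b` and every large `X`, all but at most `X ^ (a + b) exp (- log X / (log log X) ^ 13)` of the admissible pairs of
vectors `n`, `m` with entries in `(X / 2, X]` and `[1, X]` have at least `X exp (- log X / (log log X) ^ 4)` primes `p` such that
`√(2 n_i) < p < n_i` and `2 n_i - p` is prime for all `i`, and `p + m_j` is prime for all `j`.

Method (helper81, with parts by helpers 17, 18, 57, 98, after the project MV of helper32 and its provers): the circle method in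
residue classes modulo a primorial `W` (zero-free regions, repulsion by an exceptional zero, large sieve), in which the primes
have a simple model, a truncated singular series. The product of the prime weights is compared with the product of the models by
telescoping, where the weights of the `2 n_i - p` are reflected (the model is even).
-/

set_option autoImplicit false

namespace Pool.Agent.Results.MP_33f996_nt.PartitionsInConstellations

open Finset Filter

open Classical in
/-- The number of the primes `p ≤ X` such that `√(2 n_i) < p < n_i` and `2 n_i - p` is prime for all `i`, and `p + m_j` is prime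
for all `j`. -/
noncomputable def count {a b : ℕ} (n : Fin a → ℕ) (m : Fin b → ℕ) (X : ℕ) : ℕ :=
  ((Icc 1 X).filter (fun p : ℕ => p.Prime ∧ (∀ i, Real.sqrt (2 * n i) < p ∧ p < n i ∧ (2 * n i - p).Prime) ∧
    ∀ j, (p + m j).Prime)).card

/-- There is no local obstruction: for every prime `q` there is an integer `r` such that `q` divides none of the integers
`r`, `2 n_i - r`, `r + m_j`. -/
def Admissible {a b : ℕ} (n : Fin a → ℕ) (m : Fin b → ℕ) : Prop :=
  ∀ q : ℕ, q.Prime → ∃ r : ℤ, ¬ (q : ℤ) ∣ r ∧ (∀ i, ¬ (q : ℤ) ∣ 2 * (n i : ℤ) - r) ∧ ∀ j, ¬ (q : ℤ) ∣ r + m j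

/-- The exceptional pairs `(n, m)`: admissible, with `X / 2 < n_i ≤ X` and `1 ≤ m_j ≤ X`, and fewer than
`X exp (- log X / (log log X) ^ 4)` primes `p` as above. -/
def exceptional (a b X : ℕ) : Set ((Fin a → ℕ) × (Fin b → ℕ)) :=
  {v | (∀ i, X < 2 * v.1 i ∧ v.1 i ≤ X) ∧ (∀ j, 1 ≤ v.2 j ∧ v.2 j ≤ X) ∧ Admissible v.1 v.2 ∧
    (count v.1 v.2 X : ℝ) < X * Real.exp (-(Real.log X / Real.log (Real.log X) ^ 4))}

/-- For every `a`, `b` and every large `X` there are at most `X ^ (a + b) exp (- log X / (log log X) ^ 13)` exceptional pairs. -/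
theorem result (a b : ℕ) : ∀ᶠ X : ℕ in atTop,
    ((exceptional a b X).ncard : ℝ) ≤ (X : ℝ) ^ (a + b) * Real.exp (-(Real.log X / Real.log (Real.log X) ^ 13)) := by
  classical
  set σ : Fin (a + b) → Bool := Fin.append (fun _ => true) (fun _ => false) with hσ
  have hσt : ∀ i : Fin a, σ (Fin.castAdd b i) = true := fun i => by rw [hσ, Fin.append_left]
  have hσf : ∀ j : Fin b, σ (Fin.natAdd a j) = false := fun j => by rw [hσ, Fin.append_right]
  have hlog : Tendsto (fun X : ℕ => Real.log (X : ℝ)) atTop atTop := Real.tendsto_log_atTop.comp tendsto_natCast_atTop_atTop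
  have hloglog : Tendsto (fun X : ℕ => Real.log (Real.log (X : ℝ))) atTop atTop := Real.tendsto_log_atTop.comp hlog
  filter_upwards [Pool.Agent.J4H81.GB.mainX (a + b) σ, hlog.eventually (eventually_ge_atTop 1),
    hloglog.eventually (eventually_ge_atTop 2), eventually_ge_atTop 1] with X hX hL hu hX1
  have hX0 : (0 : ℝ) < X := by exact_mod_cast hX1
  set φ : ((Fin a → ℕ) × (Fin b → ℕ)) → (Fin (a + b) → ℕ) := fun v => Fin.append (fun i => 2 * v.1 i) v.2 with hφ
  have hφt : ∀ v (i : Fin a), φ v (Fin.castAdd b i) = 2 * v.1 i := fun v i => by rw [hφ]; exact Fin.append_left _ _ _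
  have hφf : ∀ v (j : Fin b), φ v (Fin.natAdd a j) = v.2 j := fun v j => by rw [hφ]; exact Fin.append_right _ _ _
  have hinj : Function.Injective φ := by
    intro v v' h
    apply Prod.ext
    · funext i
      have h1 := congrFun h (Fin.castAdd b i)
      rw [hφt, hφt] at h1
      omega
    · funext j
      have h1 := congrFun h (Fin.natAdd a j)
      rw [hφf, hφf] at h1
      exact h1
  -- the small primes
  have hsq : ((Nat.sqrt (2 * X) : ℕ) : ℝ) ≤ X * Real.exp (-(Real.log X / Real.log (Real.log X) ^ 4)) := by
    set L := Real.log (X : ℝ) with hLd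
    set u := Real.log L with hud
    have h1 : ((Nat.sqrt (2 * X) : ℕ) : ℝ) ≤ Real.sqrt ((2 * X : ℕ) : ℝ) := Real.nat_sqrt_le_real_sqrt
    have h2 : Real.sqrt ((2 * X : ℕ) : ℝ) = Real.exp ((Real.log 2 + L) / 2) := by
      have h3 : ((2 * X : ℕ) : ℝ) = Real.exp (Real.log 2 + L) := by
        rw [Real.exp_add, Real.exp_log (by norm_num), hLd, Real.exp_log hX0]
        push_cast; ring
      rw [h3, Real.exp_half]
    have h4 : (X : ℝ) * Real.exp (-(L / u ^ 4)) = Real.exp (L - L / u ^ 4) := by
      nth_rewrite 1 [← Real.exp_log hX0]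
      rw [← Real.exp_add]
      congr 1
    rw [h4]
    refine h1.trans ?_
    rw [h2]
    apply Real.exp_le_exp.2
    have h5 : (16 : ℝ) ≤ u ^ 4 := by
      have := pow_le_pow_left₀ (by norm_num) hu 4
      norm_num at this
      exact this
    have h6 : L / u ^ 4 ≤ L / 16 := div_le_div_of_nonneg_left (by linarith) (by norm_num) h5
    have h7 := Real.log_two_lt_d9
    linarith
  -- the exceptional pairs are exceptional vectors
  have hmem : ∀ v ∈ exceptional a b X, φ v ∈ ((Fintype.piFinset (fun i : Fin (a + b) => Pool.Agent.J4H81.GB.rg (σ i) X)).filter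
      (fun m => Pool.Agent.J4H81.GB.AdX σ m ∧
        (Pool.Agent.J4H81.GB.GX σ m X : ℝ) < 2 * (X * Real.exp (-(Real.log X / Real.log (Real.log X) ^ 4))))) := by
    rintro v ⟨hn, hm, had, hcnt⟩
    rw [Finset.mem_filter, Fintype.mem_piFinset]
    refine ⟨?_, ?_, ?_⟩
    · intro i
      refine Fin.addCases (fun i => ?_) (fun j => ?_) i
      · rw [hσt, hφt]
        show 2 * v.1 i ∈ Finset.Ioc X (2 * X)
        have := hn i
        exact Finset.mem_Ioc.2 ⟨this.1, by omega⟩
      · rw [hσf, hφf]
        show v.2 j ∈ Finset.Icc 1 X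
        exact Finset.mem_Icc.2 (hm j)
    · intro q hq
      obtain ⟨r, h1, h2, h3⟩ := had q hq
      have hq0 : (q : ℤ) ≠ 0 := by exact_mod_cast hq.ne_zero
      have hr0 : 0 ≤ r % q := Int.emod_nonneg r hq0
      obtain ⟨s, hs⟩ := Int.eq_ofNat_of_zero_le hr0
      have hd : r = q * (r / q) + s := by
        have := Int.mul_ediv_add_emod r q
        omega
      refine ⟨s, ?_⟩
      intro j
      refine Fin.cases ?_ (fun j => ?_) j
      · intro h4
        apply h1
        rw [hd]
        have h5 : (s : ℤ) + Pool.Agent.J4H81.GB.es σ (φ v) 0 = s := by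
          show (s : ℤ) + 0 = s
          ring
        rw [h5] at h4
        exact dvd_add (dvd_mul_right _ _) h4
      · refine Fin.addCases (fun i => ?_) (fun j => ?_) j
        · intro h4
          apply h2 i
          have h5 : Pool.Agent.J4H81.GB.es σ (φ v) (Fin.castAdd b i).succ = -((2 * v.1 i : ℕ) : ℤ) := by
            unfold Pool.Agent.J4H81.GB.es
            rw [Fin.cons_succ, hσt, hφt, if_pos rfl]
          rw [h5] at h4
          have e : 2 * (v.1 i : ℤ) - r = -((s : ℤ) + -((2 * v.1 i : ℕ) : ℤ)) - q * (r / q) := by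
            push_cast
            linarith
          rw [e]
          exact dvd_sub (h4.neg_right) (dvd_mul_right _ _)
        · intro h4
          apply h3 j
          have h5 : Pool.Agent.J4H81.GB.es σ (φ v) (Fin.natAdd a j).succ = ((v.2 j : ℕ) : ℤ) := by
            unfold Pool.Agent.J4H81.GB.es
            rw [Fin.cons_succ, hσf, hφf]
            rfl
          rw [h5] at h4
          have e : r + (v.2 j : ℤ) = ((s : ℤ) + ((v.2 j : ℕ) : ℤ)) + q * (r / q) := by linarith
          rw [e]
          exact dvd_add h4 (dvd_mul_right _ _)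
    · have hle : Pool.Agent.J4H81.GB.GX σ (φ v) X ≤ count v.1 v.2 X + Nat.sqrt (2 * X) := by
        unfold Pool.Agent.J4H81.GB.GX count
        have hsub : (Icc 1 (X / 2)).filter (fun n => n.Prime ∧ ∀ i, (Pool.Agent.J4H81.GB.fo (σ i) n (φ v i)).Prime) ⊆
            ((Icc 1 X).filter (fun p : ℕ => p.Prime ∧ (∀ i, Real.sqrt (2 * v.1 i) < p ∧ p < v.1 i ∧ (2 * v.1 i - p).Prime) ∧
              ∀ j, (p + v.2 j).Prime)) ∪ Icc 1 (Nat.sqrt (2 * X)) := by
          intro p hp
          rw [Finset.mem_filter, Finset.mem_Icc] at hp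
          obtain ⟨⟨hp1, hp2⟩, hpp, hpf⟩ := hp
          rw [Finset.mem_union, Finset.mem_filter, Finset.mem_Icc, Finset.mem_Icc]
          by_cases hps : p ≤ Nat.sqrt (2 * X)
          · exact Or.inr ⟨hp1, hps⟩
          · left
            have hps' : 2 * X < p * p := Nat.sqrt_lt.1 (not_le.1 hps)
            refine ⟨⟨hp1, by omega⟩, hpp, fun i => ?_, fun j => ?_⟩
            · have h1 := hn i
              have h2 := hpf (Fin.castAdd b i)
              rw [hσt, hφt] at h2
              refine ⟨?_, by omega, h2⟩
              rw [Real.sqrt_lt' (by exact_mod_cast hp1)]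
              have h3 : 2 * v.1 i < p ^ 2 := by nlinarith
              exact_mod_cast h3
            · have h2 := hpf (Fin.natAdd a j)
              rw [hσf, hφf] at h2
              exact h2
        refine (card_le_card hsub).trans ((card_union_le _ _).trans ?_)
        rw [Nat.card_Icc]
        simp
      have hle' : (Pool.Agent.J4H81.GB.GX σ (φ v) X : ℝ) ≤ count v.1 v.2 X + ((Nat.sqrt (2 * X) : ℕ) : ℝ) := by exact_mod_cast hle
      linarith
  have h1 : (exceptional a b X).ncard ≤ ((Fintype.piFinset (fun i : Fin (a + b) => Pool.Agent.J4H81.GB.rg (σ i) X)).filter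
      (fun m => Pool.Agent.J4H81.GB.AdX σ m ∧
        (Pool.Agent.J4H81.GB.GX σ m X : ℝ) < 2 * (X * Real.exp (-(Real.log X / Real.log (Real.log X) ^ 4))))).card := by
    rw [← Set.ncard_coe_finset, ← Set.ncard_image_of_injective _ hinj]
    apply Set.ncard_le_ncard _ (Finset.finite_toSet _)
    rintro _ ⟨v, hv, rfl⟩
    exact hmem v hv
  exact le_trans (by exact_mod_cast h1) hX

end Pool.Agent.Results.MP_33f996_nt.PartitionsInConstellations
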