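import Pool.Agent.J4H70.Rough

/-!
# Goldbach with a prime in `(√(2 n), n)` and a rough second summand: few exceptions, all scales

For `1 / 2 < θ ≤ 1`, `0 < u < θ / 2` and `ε > 0`: all `n ≤ X` but `O(X ^ (max 0 (4 u - θ) + ε))` have, for EVERY `x` with
`n ^ θ ≤ x ≤ n`, at least `δ ∏_{p ∣ n, p > 2} (p - 1) / (p - 2) * x / log (2 n) ^ 2` primes `p` in `(x / 4, x)` with
`√(2 n) < p < n` such that all prime factors of `2 n - p` are larger than `(2 n) ^ u`. (The question asks for one `p` with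
`2 n - p` prime, which is the case `u = 1 / 2`.) With `x = n`, `θ = 1`: `O(X ^ (4 u - 1 + ε))` exceptions for
`1 / 4 ≤ u < 1 / 2`. For instance, `2 n - p` is a prime or the product of two primes larger than `(2 n) ^ (1 / 3)`, with
`O(X ^ (1 / 3 + ε))` exceptions, and a product of at most three primes larger than `(2 n) ^ u`, for some fixed
`u > 1 / 4`, with `O(X ^ ε)` exceptions.

Proof. The linear sieve of level `X ^ τ`, `2 u < τ < θ`, with the remainder terms estimated on average over `n` by the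
large sieve for the characteristic function of the exceptional set (`Pool.Agent.T6.H57`).
-/

set_option autoImplicit false

namespace Pool.Agent.Results.MP_33f996_nt.RoughPartnerFewExceptions

open Finset Filter Topology

open Classical in
/-- The number of the primes `p` with `√(2 n) < p < n` and `x / 4 < p < x` such that every prime factor of `2 n - p` is
larger than `(2 n) ^ u`. -/
noncomputable def partners (u x : ℝ) (n : ℕ) : ℕ :=
  ((range n).filter (fun p : ℕ => p.Prime ∧ √(2 * (n : ℝ)) < p ∧ x / 4 < p ∧ (p : ℝ) < x ∧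
    ∀ q : ℕ, q.Prime → q ∣ (2 * n - p) → (2 * (n : ℝ)) ^ u < q)).card

/-- The product of `(p - 1) / (p - 2)` over the odd prime factors `p` of `n`: the variable part of the singular series of
`2 n`. -/
noncomputable def sing (n : ℕ) : ℝ := ∏ p ∈ n.primeFactors.erase 2, (((p : ℝ) - 1) / ((p : ℝ) - 2))

theorem sing_eq (n : ℕ) (hn : n ≠ 0) : Pool.Agent.Y882.sgs (2 * n) = sing n := by
  unfold Pool.Agent.Y882.sgs sing
  congr 1
  rw [Nat.primeFactors_mul (by norm_num) hn, Nat.prime_two.primeFactors, Finset.erase_union_distrib]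
  simp

/-- what is needed of the size of `n` -/
theorem large (u θ θ' ζ η : ℝ) (hθ : 1 / 2 < θ) (hθ' : θ' = θ - η) (hη : 0 < η) (hζ : u < ζ) (hu : 0 < u)
    (h0 : 0 < θ') (h1 : θ' ≤ 1) :
    ∀ᶠ n : ℕ in atTop, (2 * (n : ℝ)) ^ θ' ≤ (n : ℝ) ^ θ ∧ 4 * √(2 * (n : ℝ)) < (n : ℝ) ^ θ ∧
      2 * (2 * (n : ℝ)) ^ u < (2 * (n : ℝ)) ^ ζ := by
  have ev (c : ℝ) (hc : 0 < c) (M : ℝ) : ∀ᶠ n : ℕ in atTop, M < (n : ℝ) ^ c :=
    ((tendsto_rpow_atTop hc).comp tendsto_natCast_atTop_atTop).eventually_gt_atTop _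
  filter_upwards [ev η hη 2, ev (θ - 1 / 2) (by linarith) 8, ev (ζ - u) (by linarith) 2,
    eventually_gt_atTop 0] with n h2 h3 h4 h5
  have hn : (0 : ℝ) < n := by exact_mod_cast h5
  refine ⟨?_, ?_, ?_⟩
  · rw [Real.mul_rpow (by norm_num) hn.le]
    calc (2 : ℝ) ^ θ' * (n : ℝ) ^ θ' ≤ (2 : ℝ) ^ (1 : ℝ) * (n : ℝ) ^ θ' := by
          apply mul_le_mul_of_nonneg_right _ (by positivity)
          exact Real.rpow_le_rpow_of_exponent_le (by norm_num) h1
      _ = 2 * (n : ℝ) ^ θ' := by rw [Real.rpow_one]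
      _ ≤ (n : ℝ) ^ η * (n : ℝ) ^ θ' := mul_le_mul_of_nonneg_right h2.le (by positivity)
      _ = (n : ℝ) ^ θ := by
          rw [← Real.rpow_add hn]
          congr 1
          rw [hθ']
          ring
  · have e1 : √(2 * (n : ℝ)) ≤ 2 * √(n : ℝ) := by
      rw [Real.sqrt_mul (by norm_num)]
      apply mul_le_mul_of_nonneg_right _ (Real.sqrt_nonneg _)
      rw [Real.sqrt_le_left (by norm_num)]
      norm_num
    have e2 : (n : ℝ) ^ θ = (n : ℝ) ^ (θ - 1 / 2) * √(n : ℝ) := by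
      rw [Real.sqrt_eq_rpow, ← Real.rpow_add hn]
      congr 1
      ring
    rw [e2]
    have e3 : 0 < √(n : ℝ) := Real.sqrt_pos.2 hn
    nlinarith
  · have e1 : (2 * (n : ℝ)) ^ ζ = (2 * (n : ℝ)) ^ (ζ - u) * (2 * (n : ℝ)) ^ u := by
      rw [← Real.rpow_add (by positivity)]
      congr 1
      ring
    have e2 : (n : ℝ) ^ (ζ - u) ≤ (2 * (n : ℝ)) ^ (ζ - u) :=
      Real.rpow_le_rpow hn.le (by linarith) (by linarith)
    rw [e1]
    apply mul_lt_mul_of_pos_right _ (by positivity)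
    linarith

open Classical in
/-- **Few exceptions.** For `1 / 2 < θ ≤ 1`, `0 < u < θ / 2` and `ε > 0`: all `n ≤ X` but `O(X ^ (max 0 (4 u - θ) + ε))`
have, for every `x` with `n ^ θ ≤ x ≤ n`, at least `δ sing n * x / log (2 n) ^ 2` primes `p` with `√(2 n) < p < n` and
`x / 4 < p < x` such that all prime factors of `2 n - p` are larger than `(2 n) ^ u`. -/
theorem result : ∀ θ u ε : ℝ, 1 / 2 < θ → θ ≤ 1 → 0 < u → 2 * u < θ → 0 < ε →
    ∃ δ C : ℝ, 0 < δ ∧ 0 < C ∧ ∀ X : ℕ, 1 ≤ X →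
      (((Icc 1 X).filter (fun n : ℕ => ∃ x : ℝ, (n : ℝ) ^ θ ≤ x ∧ x ≤ n ∧
        (partners u x n : ℝ) < δ * sing n * (x / Real.log (2 * n) ^ 2))).card : ℝ) ≤
      C * (X : ℝ) ^ (max 0 (4 * u - θ) + ε) := by
  intro θ u ε hθ hθ1 hu huθ hε
  set η : ℝ := min ((θ - 2 * u) / 8) (ε / 16) with hη
  have hη0 : 0 < η := lt_min (by linarith) (by linarith)
  have hη1 : η ≤ (θ - 2 * u) / 8 := min_le_left _ _
  have hη2 : η ≤ ε / 16 := min_le_right _ _
  set τ : ℝ := max (2 * u + 3 * η) (θ / 2) with hτ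
  have hτ1 : 2 * u + 3 * η ≤ τ := le_max_left _ _
  have hτ2 : θ / 2 ≤ τ := le_max_right _ _
  have hτ3 : τ < θ - η := max_lt (by linarith) (by linarith)
  set ζ : ℝ := max (u + η) (τ / 4) with hζ
  have hζ1 : u + η ≤ ζ := le_max_left _ _
  have hζ2 : τ / 4 ≤ ζ := le_max_right _ _
  have hζ3 : 2 * ζ < τ := by
    have : ζ < τ / 2 := max_lt (by linarith) (by linarith)
    linarith
  obtain ⟨r, δ, C, hδ, hC, H⟩ := Pool.Agent.J4H70.Rough.everyScaleR (θ - η) τ ζ (ε / 4) (by linarith) (by linarith)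
    (by linarith) hζ3 (by linarith) (by linarith) hτ3 (by linarith)
  obtain ⟨n0, hn0⟩ := eventually_atTop.1 (large u θ (θ - η) ζ η hθ rfl hη0 (by linarith) hu (by linarith)
    (by linarith))
  set e : ℝ := max 0 (4 * u - θ) + ε with he
  have he0 : 0 < e := by
    have := le_max_left 0 (4 * u - θ)
    linarith
  have hexp : 2 * τ - (θ - η) + ε / 4 ≤ e := by
    have h1 : 2 * τ ≤ max 0 (4 * u - θ) + θ + 6 * η := by
      have h2 : τ ≤ (max 0 (4 * u - θ) + θ + 6 * η) / 2 := by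
        apply max_le
        · have := le_max_right 0 (4 * u - θ)
          linarith
        · have := le_max_left 0 (4 * u - θ)
          linarith
      linarith
    linarith
  have hexp0 : 0 ≤ 2 * τ - (θ - η) + ε / 4 := by linarith
  refine ⟨δ, C * 2 ^ e + n0, hδ, by positivity, fun X hX => ?_⟩
  have hXr : (1 : ℝ) ≤ X := by exact_mod_cast hX
  set E := (Icc 1 (2 * X)).filter (fun N : ℕ => Even N ∧ ∃ x : ℝ, (N : ℝ) ^ (θ - η) ≤ x ∧ x ≤ N / 2 ∧
        (Pool.Agent.Y882.GX.inWindow r ζ x N : ℝ) < δ * Pool.Agent.Y882.sgs N * (x / Real.log N ^ 2)) with hE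
  have hsub : ((Icc 1 X).filter (fun n : ℕ => ∃ x : ℝ, (n : ℝ) ^ θ ≤ x ∧ x ≤ n ∧
        (partners u x n : ℝ) < δ * sing n * (x / Real.log (2 * n) ^ 2))) ⊆
      range n0 ∪ ((Icc 1 X).filter (fun n => 2 * n ∈ E)) := by
    intro n hn
    rw [mem_filter, mem_Icc] at hn
    obtain ⟨⟨hn1, hn2⟩, x, hx1, hx2, hlt⟩ := hn
    rw [mem_union]
    rcases Nat.lt_or_ge n n0 with h | h
    · left
      exact mem_range.2 h
    · right
      obtain ⟨g1, g2, g3⟩ := hn0 n h
      rw [mem_filter, mem_Icc, hE, mem_filter, mem_Icc]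
      refine ⟨⟨hn1, hn2⟩, ⟨by omega, by omega⟩, even_two_mul n, x, ?_, ?_, ?_⟩
      · push_cast
        linarith
      · push_cast
        linarith
      · have h1 : Pool.Agent.Y882.GX.inWindow r ζ x (2 * n) ≤ partners u x n := by
          unfold Pool.Agent.Y882.GX.inWindow partners
          apply card_le_card
          intro p hp
          rw [mem_filter] at hp ⊢
          obtain ⟨-, k2, k3, k4, -, k6⟩ := hp
          refine ⟨?_, k2, ?_, k3, k4, fun q hq hqd => ?_⟩
          · rw [mem_range]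
            have : (p : ℝ) < n := lt_of_lt_of_le k4 hx2
            exact_mod_cast this
          · linarith
          · have k7 := k6 q hq hqd
            push_cast at k7
            linarith
        have h2 : (Pool.Agent.Y882.GX.inWindow r ζ x (2 * n) : ℝ) ≤ partners u x n := by exact_mod_cast h1
        refine h2.trans_lt (hlt.trans_le (le_of_eq ?_))
        rw [sing_eq n (by omega)]
        push_cast
        rfl
  have hinj : (((Icc 1 X).filter (fun n => 2 * n ∈ E)).card : ℝ) ≤ E.card := by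
    have : ((Icc 1 X).filter (fun n => 2 * n ∈ E)).card ≤ E.card := by
      apply card_le_card_of_injOn (fun n => 2 * n)
      · intro n hn
        have := (mem_filter.1 (mem_coe.1 hn)).2
        exact mem_coe.2 this
      · intro a _ b _ hab
        have : 2 * a = 2 * b := hab
        omega
    exact_mod_cast this
  have hE2 : (E.card : ℝ) ≤ C * 2 ^ e * (X : ℝ) ^ e := by
    have h1 := H (2 * X) (by omega)
    have h2 : ((2 * X : ℕ) : ℝ) ^ (2 * τ - (θ - η) + ε / 4) ≤ ((2 * X : ℕ) : ℝ) ^ e :=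
      Real.rpow_le_rpow_of_exponent_le (by push_cast; linarith) hexp
    have h3 : ((2 * X : ℕ) : ℝ) ^ e = 2 ^ e * (X : ℝ) ^ e := by
      push_cast
      exact Real.mul_rpow (by norm_num) (by linarith)
    calc (E.card : ℝ) ≤ C * ((2 * X : ℕ) : ℝ) ^ (2 * τ - (θ - η) + ε / 4) := h1
      _ ≤ C * ((2 * X : ℕ) : ℝ) ^ e := mul_le_mul_of_nonneg_left h2 hC.le
      _ = C * 2 ^ e * (X : ℝ) ^ e := by rw [h3]; ring
  have hXe : (1 : ℝ) ≤ (X : ℝ) ^ e := Real.one_le_rpow hXr he0.le
  calc _ ≤ (((range n0 ∪ ((Icc 1 X).filter (fun n => 2 * n ∈ E))).card : ℕ) : ℝ) := by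
        exact_mod_cast card_le_card hsub
    _ ≤ (((range n0).card + ((Icc 1 X).filter (fun n => 2 * n ∈ E)).card : ℕ) : ℝ) := by
        exact_mod_cast card_union_le _ _
    _ = n0 + (((Icc 1 X).filter (fun n => 2 * n ∈ E)).card : ℝ) := by rw [card_range]; push_cast; rfl
    _ ≤ n0 * (X : ℝ) ^ e + C * 2 ^ e * (X : ℝ) ^ e := by
        have : (n0 : ℝ) ≤ n0 * (X : ℝ) ^ e := le_mul_of_one_le_right (Nat.cast_nonneg _) hXe
        linarith
    _ = (C * 2 ^ e + n0) * (X : ℝ) ^ e := by ring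

end Pool.Agent.Results.MP_33f996_nt.RoughPartnerFewExceptions
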